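import Pool.Agent.MP_cce4c9_lc.H14.Ext

/-! The norm to a rational function field, and Weil reciprocity. -/

set_option autoImplicit false

open WithZero Finsupp Module
open scoped IntermediateField

namespace Pool.Agent.MP_cce4c9_lc.H9

open Pool.Agent.MP_cce4c9_lc.H87 Pool.Agent.MP_cce4c9_lc.H7

section Basic

variable {k K : Type} [Field k] [IsAlgClosed k] [Field K] [Algebra k K]

theorem fd' (hK : IsFF k K) {s : K} (hs : s ∉ Set.range (algebraMap k K)) :
    FiniteDimensional k⟮s⟯ K := H14.fd_of_transc hK (H14.transc hs)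

theorem ff_of_top {s : K} (hs : s ∉ Set.range (algebraMap k K)) (htop : k⟮s⟯ = ⊤) : IsFF k K :=
  ⟨s, H14.transc hs, by
    rw [htop]
    exact Module.finite_of_finrank_eq_succ IntermediateField.finrank_top⟩

theorem res' (hK : IsFF k K) (v : Place k K) : v.Res := by
  intro h h1
  by_contra! H
  have h2 : ∀ c, v.val (h - algebraMap k K c) = 1 := fun c =>
    le_antisymm ((v.val.map_sub _ _).trans (max_le h1 (v.const_le c))) (H c)
  have hc : h ∉ Set.range (algebraMap k K) := by
    rintro ⟨c, rfl⟩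
    simpa using h2 c
  have h3 : ∀ p : Polynomial k, p ≠ 0 → v.val (Polynomial.aeval h p) = 1 := fun p hp => by
    rw [(IsAlgClosed.splits p).eq_prod_roots, map_mul, map_mul, Polynomial.aeval_C,
      v.triv _ (Polynomial.leadingCoeff_ne_zero.2 hp), one_mul, map_multiset_prod,
      map_multiset_prod]
    refine Multiset.prod_eq_one fun x hx => ?_
    simp only [Multiset.map_map, Multiset.mem_map] at hx
    obtain ⟨a, -, rfl⟩ := hx
    simpa using h2 a
  have h4 : v.val.IsTrivialOn k⟮h⟯ := ⟨fun a ha => by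
    obtain ⟨r, s, e⟩ := (IntermediateField.mem_adjoin_simple_iff k (a : K)).1 a.2
    have h0 : (a : K) ≠ 0 := by simpa using ha
    show v.val (a : K) = 1
    rw [e] at h0 ⊢
    rw [map_div₀, h3 r (by rintro rfl; simp at h0), h3 s (by rintro rfl; simp at h0), div_one]⟩
  have := fd' hK hc
  obtain ⟨π, hπ⟩ := v.exists_unif
  refine Valuation.transcendental_of_ne_one (v := v.val) k⟮h⟯ π (fun e => ?_) (fun e => ?_)
    (Algebra.IsAlgebraic.isAlgebraic π)
  · rw [e, map_zero] at hπ
    exact exp_ne_zero hπ.symm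
  · have h5 := v.ord_eq (n := 1) hπ
    rw [v.ord_of_val_one e] at h5
    omega

theorem dv_ap' (hD : StmtDEG) (hK : IsFF k K) (h : K) (v : Place k K) : dv k h v = v.ord h := by
  by_cases hc : h ∈ Set.range (algebraMap k K)
  · obtain ⟨c, rfl⟩ := hc
    exact dv_apply (by simp) v
  · have := fd' hK hc
    refine H14.dv_ap_of_pos ?_ v
    rw [(hD k K hK).1 h hc]
    exact_mod_cast finrank_pos

end Basic

section Gen

variable {k K : Type} [Field k] [Field K] [Algebra k K]

theorem zpow_sum' {G ι : Type} [Field G] {a : G} (ha : a ≠ 0) (T : Finset ι) (m : ι → ℤ) :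
    ∏ i ∈ T, a ^ m i = a ^ ∑ i ∈ T, m i := by
  classical
  induction T using Finset.induction_on with
  | empty => simp
  | insert i T hi ih => rw [Finset.prod_insert hi, Finset.sum_insert hi, ih, zpow_add₀ ha]

theorem ord_prod' {ι : Type} (v : Place k K) (T : Finset ι) (u : ι → K) (m : ι → ℤ)
    (hu : ∀ i ∈ T, u i ≠ 0) : v.ord (∏ i ∈ T, u i ^ m i) = ∑ i ∈ T, m i * v.ord (u i) := by
  classical
  induction T using Finset.induction_on with
  | empty => simp
  | insert i T hi ih =>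
    have h1 : ∀ j ∈ T, u j ≠ 0 := fun j hj => hu j (Finset.mem_insert_of_mem hj)
    rw [Finset.prod_insert hi, Finset.sum_insert hi,
      v.ord_mul (v.val_ne (zpow_ne_zero _ (hu i (Finset.mem_insert_self _ _))))
        (v.val_ne (Finset.prod_ne_zero_iff.2 fun j hj => zpow_ne_zero _ (h1 j hj))),
      ih h1, v.ord_zpow]

theorem ev_prod' {ι : Type} {v : Place k K} (H : v.Res) (T : Finset ι) (u : ι → K) (m : ι → ℤ)
    (hu : ∀ i ∈ T, v.val (u i) = 1) : v.val (∏ i ∈ T, u i ^ m i) = 1 ∧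
      v.ev (∏ i ∈ T, u i ^ m i) = ∏ i ∈ T, v.ev (u i) ^ m i := by
  classical
  induction T using Finset.induction_on with
  | empty => simp
  | insert i T hi ih =>
    obtain ⟨h1, h2⟩ := ih fun j hj => hu j (Finset.mem_insert_of_mem hj)
    have h3 := hu i (Finset.mem_insert_self _ _)
    have h4 : v.val (u i ^ m i) = 1 := by rw [map_zpow₀, h3, one_zpow]
    rw [Finset.prod_insert hi, Finset.prod_insert hi, H.ev_mul h4.le h1.le, h2, H.ev_zpow h3,
      map_mul, h4, h1, one_mul]
    exact ⟨rfl, rfl⟩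

theorem nc_inv {s : K} (hs : s ∉ Set.range (algebraMap k K)) :
    s⁻¹ ∉ Set.range (algebraMap k K) := by
  rintro ⟨c, hc⟩
  exact hs ⟨c⁻¹, by rw [map_inv₀, hc, inv_inv]⟩

theorem nc_sub {s : K} (hs : s ∉ Set.range (algebraMap k K)) (a : k) :
    s - algebraMap k K a ∉ Set.range (algebraMap k K) := by
  rintro ⟨c, hc⟩
  exact hs ⟨c + a, by rw [map_add, hc, sub_add_cancel]⟩

theorem nc_ne {s : K} (hs : s ∉ Set.range (algebraMap k K)) : s ≠ 0 := by
  rintro rfl
  exact hs ⟨0, map_zero _⟩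

theorem adj_inv (s : K) : k⟮s⟯ = k⟮s⁻¹⟯ := by
  apply le_antisymm <;> rw [IntermediateField.adjoin_simple_le_iff]
  · simpa using inv_mem (IntermediateField.mem_adjoin_simple_self k s⁻¹)
  · exact inv_mem (IntermediateField.mem_adjoin_simple_self k s)

theorem adj_sub (s : K) (a : k) : k⟮s⟯ = k⟮s - algebraMap k K a⟯ := by
  apply le_antisymm <;> rw [IntermediateField.adjoin_simple_le_iff]
  · simpa using add_mem (IntermediateField.mem_adjoin_simple_self k (s - algebraMap k K a))
      (IntermediateField.algebraMap_mem _ a)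
  · exact sub_mem (IntermediateField.mem_adjoin_simple_self k s)
      (IntermediateField.algebraMap_mem _ a)

theorem adj_gen (s : K) : k⟮IntermediateField.AdjoinSimple.gen k s⟯ = ⊤ := by
  apply IntermediateField.lift_injective
  rw [IntermediateField.lift_adjoin_simple, IntermediateField.lift_top]
  rfl

variable {E : Type} [Field E] [Algebra k E] [Algebra E K]

theorem ov_ord {y : Place k K} {x : Place k E} {e : ℕ} (H : Over y x e) (h : E) :
    y.ord (algebraMap E K h) = e * x.ord h := by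
  simp only [Place.ord, H.2 h, log_pow]; simp

theorem ov_lt {y : Place k K} {x : Place k E} {e : ℕ} (H : Over y x e) (h : E) :
    y.val (algebraMap E K h) < 1 ↔ x.val h < 1 := by
  rw [H.2 h]; exact pow_lt_one_iff H.1.ne'

theorem ov_le {y : Place k K} {x : Place k E} {e : ℕ} (H : Over y x e) (h : E) :
    y.val (algebraMap E K h) ≤ 1 ↔ x.val h ≤ 1 := by
  rw [H.2 h]; exact pow_le_one_iff H.1.ne'

end Gen

section Main

variable {k K : Type} [Field k] [IsAlgClosed k] [Field K] [Algebra k K]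

/-- A nonconstant function has a zero. -/
theorem zero_ex (hD : StmtDEG) (hK : IsFF k K) {s : K} (hs : s ∉ Set.range (algebraMap k K)) :
    ∃ v : Place k K, 0 < v.ord s := by
  by_contra! h
  have h0 : dv k s ⊔ 0 = 0 := by
    ext v
    rw [Finsupp.sup_apply, dv_ap' hD hK]
    exact sup_eq_right.2 (h v)
  have h1 := (hD k K hK).1 s hs
  have := fd' hK hs
  have h2 : 0 < finrank k⟮s⟯ K := finrank_pos
  rw [h0, map_zero] at h1
  omega

/-- A generator of a rational function field has exactly one zero, and it is simple. -/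
theorem zero_uniq (hD : StmtDEG) (hK : IsFF k K) {t : K} (ht : t ∉ Set.range (algebraMap k K))
    (htop : k⟮t⟯ = ⊤) : ∃ x : Place k K, x.ord t = 1 ∧ ∀ x' : Place k K, 0 < x'.ord t → x' = x := by
  classical
  obtain ⟨x, hx⟩ := zero_ex hD hK ht
  have h1 := (hD k K hK).1 t ht
  have h2 : finrank k⟮t⟯ K = 1 := by rw [htop]; exact IntermediateField.finrank_top
  rw [h2, degree_apply] at h1
  have hv : ∀ v : Place k K, 0 < v.ord t → (dv k t ⊔ 0 : Dv k K) v = v.ord t := fun v hv => by
    rw [Finsupp.sup_apply, dv_ap' hD hK]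
    exact sup_eq_left.2 hv.le
  have key : ∀ S : Finset (Place k K), (∀ v ∈ S, 0 < v.ord t) → ∑ v ∈ S, v.ord t ≤ 1 := by
    intro S hS
    rw [← Finset.sum_congr rfl fun v h => hv v (hS v h)]
    refine le_trans (Finset.sum_le_sum_of_subset_of_nonneg (fun v h => ?_) fun v _ _ => ?_)
      (h1.trans Nat.cast_one).le
    · rw [Finsupp.mem_support_iff, hv v (hS v h)]
      exact (hS v h).ne'
    · rw [Finsupp.sup_apply]
      exact le_sup_right
  refine ⟨x, ?_, fun x' hx' => ?_⟩
  · have := key {x} (by simpa using hx)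
    rw [Finset.sum_singleton] at this
    omega
  · by_contra hne
    have := key {x', x} (by simp [hx, hx'])
    rw [Finset.sum_pair hne] at this
    omega

variable {E : Type} [Field E] [Algebra k E] [Algebra E K] [IsScalarTower k E K]
  [FiniteDimensional E K]

open Classical in
theorem np_one (hD : StmtDEG) (hX : StmtEXT) (hN : StmtNORM) (hE : IsFF k E) (hK : IsFF k K)
    (σ : E) (hσ : σ ∉ Set.range (algebraMap k E)) (htop : k⟮σ⟯ = ⊤) (f : K) (hf : f ≠ 0) :
    ∃ c : k, c ≠ 0 ∧ Algebra.norm E f = algebraMap k E c *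
      ∏ w ∈ (dv k f).support with w.val (algebraMap E K σ) ≤ 1,
        (σ - algebraMap k E (w.ev (algebraMap E K σ))) ^ w.ord f := by
  obtain ⟨dn, e, hov, -⟩ := hX k E K hE
  have hN1 := (hN k E K hE dn e hov f).1
  have hne : ∀ a : k, σ - algebraMap k E a ≠ 0 := fun a => nc_ne (nc_sub hσ a)
  set P : E := ∏ w ∈ (dv k f).support with w.val (algebraMap E K σ) ≤ 1,
    (σ - algebraMap k E (w.ev (algebraMap E K σ))) ^ w.ord f with hP
  have hP0 : P ≠ 0 := Finset.prod_ne_zero_iff.2 fun w _ => zpow_ne_zero _ (hne _)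
  have hN0 : Algebra.norm E f ≠ 0 := Algebra.norm_ne_zero_iff.2 hf
  have hu0 : Algebra.norm E f * P⁻¹ ≠ 0 := mul_ne_zero hN0 (inv_ne_zero hP0)
  have key : ∀ x : Place k E, x.val σ ≤ 1 → x.ord (Algebra.norm E f * P⁻¹) = 0 := by
    intro x hx
    rw [x.ord_mul (x.val_ne hN0) (x.val_ne (inv_ne_zero hP0)), x.ord_inv, ← dv_ap' hD hE, hN1, hP,
      ord_prod' x _ _ _ fun w _ => hne _, mapDomain, Finsupp.sum_apply, Finsupp.sum,
      Finset.sum_filter, ← sub_eq_add_neg, sub_eq_zero]
    refine Finset.sum_congr rfl fun w _ => ?_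
    rw [single_apply, dv_ap' hD hK]
    by_cases hw : w.val (algebraMap E K σ) ≤ 1
    · rw [if_pos hw]
      set a := w.ev (algebraMap E K σ)
      obtain ⟨xa, h1, h2⟩ := zero_uniq hD hE (nc_sub hσ a) ((adj_sub σ a).symm.trans htop)
      have h3 : dn w = xa := by
        apply h2
        rw [← Place.val_lt_one _ (Place.val_ne _ (hne a)), ← ov_lt (hov w), map_sub,
          ← IsScalarTower.algebraMap_apply]
        exact (res' hK w).ev_spec hw
      by_cases h4 : dn w = x
      · rw [if_pos h4, ← h4, h3, h1, mul_one]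
      · have h5 : 0 ≤ x.ord (σ - algebraMap k E a) := by
          rw [← x.val_le_one (x.val_ne (hne a))]
          exact (x.val.map_sub _ _).trans (max_le hx (x.const_le a))
        have h6 : ¬ 0 < x.ord (σ - algebraMap k E a) := fun h => h4 (h3.trans (h2 x h).symm)
        rw [if_neg h4, show x.ord (σ - algebraMap k E a) = 0 by omega, mul_zero]
    · rw [if_neg hw, if_neg]
      rintro rfl
      exact hw ((ov_le (hov w) σ).2 hx)
  have hc : Algebra.norm E f * P⁻¹ ∈ Set.range (algebraMap k E) := by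
    by_contra hc
    obtain ⟨x1, h1⟩ := zero_ex hD hE hc
    obtain ⟨x2, h2⟩ := zero_ex hD hE (nc_inv hc)
    obtain ⟨x, -, h3⟩ := zero_uniq hD hE (nc_inv hσ) ((adj_inv σ).symm.trans htop)
    have h4 : ∀ z : Place k E, z.ord (Algebra.norm E f * P⁻¹) ≠ 0 → z = x := fun z hz => by
      apply h3
      have : ¬ 0 ≤ z.ord σ := fun h => hz (key z ((z.val_le_one (z.val_ne (nc_ne hσ))).2 h))
      rw [z.ord_inv]
      omega
    rw [x2.ord_inv] at h2
    have h5 := h4 x1 h1.ne'
    have h6 := h4 x2 (by omega)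
    rw [h5] at h1
    rw [h6] at h2
    omega
  obtain ⟨c, hc⟩ := hc
  refine ⟨c, fun h => hu0 (by rw [← hc, h, map_zero]), ?_⟩
  rw [hc, inv_mul_cancel_right₀ hP0]

theorem np_two (hD : StmtDEG) (hX : StmtEXT) (hN : StmtNORM) (hE : IsFF k E) (hK : IsFF k K)
    (σ : E) (hσ : σ ∉ Set.range (algebraMap k E)) (htop : k⟮σ⟯ = ⊤) (f : K)
    (hoff : Off f (dv k (algebraMap E K σ) ⊔ 0)) (v : Place k K)
    (hv : v.val (algebraMap E K σ) < 1) :
    v.val (algebraMap E K (Algebra.norm E f)) = 1 ∧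
      v.ev (algebraMap E K (Algebra.norm E f)) = evD f (dv k (algebraMap E K σ) ⊔ 0) := by
  obtain ⟨dn, e, hov, -⟩ := hX k E K hE
  obtain ⟨x, h1, h2⟩ := zero_uniq hD hE hσ htop
  have hσ0 := nc_ne hσ
  have hvx : dn v = x := h2 _ ((Place.val_lt_one _ (Place.val_ne _ hσ0)).1 ((ov_lt (hov v) σ).1 hv))
  set D : Dv k K := dv k (algebraMap E K σ) ⊔ 0 with hD'
  have hDa : ∀ y, D y = (e y * (dn y).ord σ : ℤ) ⊔ 0 := fun y => by
    rw [hD', Finsupp.sup_apply, dv_ap' hD hK, ov_ord (hov y)]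
    rfl
  have hDe : ∀ y, dn y = x → D y = e y := fun y hy => by
    rw [hDa, hy, h1, mul_one]
    exact sup_eq_left.2 (Nat.cast_nonneg _)
  have hS : ∀ y, y ∈ D.support ↔ dn y = x := fun y => by
    rw [Finsupp.mem_support_iff]
    refine ⟨fun h => h2 _ ?_, fun h => ?_⟩
    · by_contra! h3
      exact h ((hDa y).trans
        (sup_eq_right.2 (mul_nonpos_of_nonneg_of_nonpos (Nat.cast_nonneg _) h3)))
    · rw [hDe y h]
      exact_mod_cast (hov y).1.ne'
  have hf1 : ∀ y ∈ D.support, y.val f = 1 := fun y hy => hoff y (Finsupp.mem_support_iff.1 hy)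
  obtain ⟨h3, h4⟩ := (hN k E K hE dn e hov f).2 x D.support hS fun y hy => (hf1 y hy).le
  have h5 : x.ev (Algebra.norm E f) = evD f D := by
    rw [h4, evD, Finsupp.prod]
    exact Finset.prod_congr rfl fun y hy => by rw [hDe y ((hS y).1 hy), zpow_natCast]
  have h6 : x.val (Algebra.norm E f) = 1 := by
    refine h3.eq_or_lt.resolve_right fun h => ?_
    rw [x.ev_of_lt h] at h4
    exact Finset.prod_ne_zero_iff.2
      (fun y hy => pow_ne_zero _ ((res' hK y).ev_ne_zero (hf1 y hy))) h4.symm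
  refine ⟨by rw [(hov v).2, hvx, h6, one_pow], v.ev_eq ?_⟩
  rw [IsScalarTower.algebraMap_apply k E K, ← map_sub, ov_lt (hov v), hvx, ← h5]
  exact (res' hE x).ev_spec h3

end Main

/-- The norm to `k(s)`. -/
theorem np (hD : StmtDEG) (hX : StmtEXT) (hN : StmtNORM) : StmtNP := by
  intro k K _ _ _ _ hK E s hs hE f hf
  subst hE
  have := fd' hK hs
  have hσ : IntermediateField.AdjoinSimple.gen k s ∉ Set.range (algebraMap k k⟮s⟯) := by
    rintro ⟨c, hc⟩
    exact hs ⟨c, congrArg Subtype.val hc⟩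
  have hE : IsFF k k⟮s⟯ := ff_of_top hσ (adj_gen s)
  refine ⟨?_, fun hoff v hv => np_two hD hX hN hE hK _ hσ (adj_gen s) f hoff v hv⟩
  obtain ⟨c, hc, h⟩ := np_one hD hX hN hE hK _ hσ (adj_gen s) f hf
  refine ⟨c, hc, ?_⟩
  have h1 := congrArg (algebraMap k⟮s⟯ K) h
  rw [map_mul, map_prod, ← IsScalarTower.algebraMap_apply] at h1
  refine h1.trans (congrArg _ (Finset.prod_congr rfl fun w _ => ?_))
  rw [map_zpow₀, map_sub, ← IsScalarTower.algebraMap_apply]
  rfl

/-- Weil reciprocity. -/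
theorem wr (hD : StmtDEG) (hP : StmtNP) : StmtWR := by
  classical
  intro k K _ _ _ _ hK f g hf hg hoff
  have hdeg : ∑ w ∈ (dv k f).support, w.ord f = 0 := by
    rw [← (hD k K hK).2 f, degree_apply]
    exact Finset.sum_congr rfl fun w _ => (dv_ap' hD hK f w).symm
  have hev : evD g (dv k f) = ∏ w ∈ (dv k f).support, w.ev g ^ w.ord f :=
    Finset.prod_congr rfl fun w _ => by rw [dv_ap' hD hK]
  by_cases hc : g ∈ Set.range (algebraMap k K)
  · obtain ⟨c, rfl⟩ := hc
    have h0 : dv k (algebraMap k K c) = 0 := by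
      ext v
      rw [dv_ap' hD hK, v.ord_const]
      rfl
    have hc0 : c ≠ 0 := fun h => hg (by rw [h, map_zero])
    rw [hev, h0, evD, Finsupp.prod_zero_index]
    simp only [Place.ev_const]
    rw [zpow_sum' hc0, hdeg, zpow_zero]
  have hg1 : ∀ w ∈ (dv k f).support, w.val g = 1 := fun w hw => by
    rw [w.val_one_iff (w.val_ne hg), ← dv_ap' hD hK]
    by_contra h
    exact Finsupp.mem_support_iff.1 hw ((dv_ap' hD hK f w).trans (w.ord_of_val_one (hoff w h)))
  have ha : ∀ w ∈ (dv k f).support, w.ev g ≠ 0 := fun w hw => (res' hK w).ev_ne_zero (hg1 w hw)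
  obtain ⟨⟨c, hc0, hN⟩, h1⟩ := hP k K hK _ g hc rfl f hf
  obtain ⟨-, h2⟩ := hP k K hK _ g⁻¹ (nc_inv hc) (adj_inv g) f hf
  rw [Finset.filter_true_of_mem fun w hw => (hg1 w hw).le] at hN
  have hs1 : ∀ v, (dv k g ⊔ 0 : Dv k K) v ≠ 0 → dv k g v ≠ 0 := fun v hv h =>
    hv (by rw [Finsupp.sup_apply, h]; simp)
  have hs2 : ∀ v, (dv k g⁻¹ ⊔ 0 : Dv k K) v ≠ 0 → dv k g v ≠ 0 := fun v hv h =>
    hv (by rw [Finsupp.sup_apply, dv_ap' hD hK, v.ord_inv, ← dv_ap' hD hK, h]; simp)
  obtain ⟨v, hv⟩ := zero_ex hD hK hc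
  obtain ⟨v', hv'⟩ := zero_ex hD hK (nc_inv hc)
  rw [← v.val_lt_one (v.val_ne hg)] at hv
  rw [← v'.val_lt_one (v'.val_ne (inv_ne_zero hg))] at hv'
  have e1 := (h1 (fun w hw => hoff w (hs1 w hw)) v hv).2
  have e2 := (h2 (fun w hw => hoff w (hs2 w hw)) v' hv').2
  have e3 : v.ev (Algebra.norm k⟮g⟯ f : K) = c * evD g (dv k f) := by
    have hu : ∀ w ∈ (dv k f).support, v.val (g - algebraMap k K (w.ev g)) = 1 := fun w hw => by
      rw [v.val.map_sub_eq_of_lt_right (by rw [v.triv _ (ha w hw)]; exact hv), v.triv _ (ha w hw)]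
    obtain ⟨h3, h4⟩ := ev_prod' (res' hK v) _ _ (fun w => w.ord f) hu
    rw [hN, (res' hK v).ev_mul (v.const_le c) h3.le, h4, v.ev_const, hev]
    congr 1
    have h5 : ∀ w ∈ (dv k f).support, v.ev (g - algebraMap k K (w.ev g)) ^ w.ord f =
        (-1) ^ w.ord f * w.ev g ^ w.ord f := fun w _ => by
      rw [(res' hK v).ev_sub hv.le (v.const_le _), v.ev_of_lt hv, v.ev_const, ← mul_zpow]
      congr 1
      ring
    rw [Finset.prod_congr rfl h5, Finset.prod_mul_distrib, zpow_sum' (by norm_num), hdeg,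
      zpow_zero, one_mul]
  have e4 : v'.ev (Algebra.norm k⟮g⟯ f : K) = c := by
    have hlt : ∀ w : Place k K, v'.val (algebraMap k K (w.ev g) * g⁻¹) < 1 := fun w => by
      rw [map_mul]
      exact (mul_le_of_le_one_left' (v'.const_le _)).trans_lt hv'
    have hu : ∀ w ∈ (dv k f).support, v'.val (1 - algebraMap k K (w.ev g) * g⁻¹) = 1 :=
      fun w _ => v'.val.map_one_sub_of_lt (hlt w)
    obtain ⟨h3, h4⟩ := ev_prod' (res' hK v') _ _ (fun w => w.ord f) hu
    have h5 : ∀ w ∈ (dv k f).support, (g - algebraMap k K (w.ev g)) ^ w.ord f =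
        g ^ w.ord f * (1 - algebraMap k K (w.ev g) * g⁻¹) ^ w.ord f := fun w _ => by
      rw [← mul_zpow]
      congr 1
      field_simp
    rw [hN, Finset.prod_congr rfl h5, Finset.prod_mul_distrib, zpow_sum' hg, hdeg, zpow_zero,
      one_mul, (res' hK v').ev_mul (v'.const_le c) h3.le, h4, v'.ev_const,
      Finset.prod_eq_one, mul_one]
    intro w _
    rw [(res' hK v').ev_sub (by simp) (hlt w).le, v'.ev_of_lt (hlt w), v'.ev_one, sub_zero,
      one_zpow]
  have e5 : evD f (dv k g ⊔ 0) = evD f (dv k g⁻¹ ⊔ 0) * evD f (dv k g) := by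
    rw [evD, evD, evD,
      Finsupp.prod_of_support_subset _ (s := (dv k g).support)
        (fun w hw => Finsupp.mem_support_iff.2 (hs1 w (Finsupp.mem_support_iff.1 hw))) _
        (fun _ _ => zpow_zero _),
      Finsupp.prod_of_support_subset _ (s := (dv k g).support)
        (fun w hw => Finsupp.mem_support_iff.2 (hs2 w (Finsupp.mem_support_iff.1 hw))) _
        (fun _ _ => zpow_zero _),
      Finsupp.prod, ← Finset.prod_mul_distrib]
    refine Finset.prod_congr rfl fun w hw => ?_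
    rw [← zpow_add₀ ((res' hK w).ev_ne_zero (hoff w (Finsupp.mem_support_iff.1 hw))),
      Finsupp.sup_apply, Finsupp.sup_apply, dv_ap' hD hK g⁻¹, w.ord_inv, dv_ap' hD hK g]
    congr 1
    simp only [Finsupp.coe_zero, Pi.zero_apply]
    omega
  rw [← e1, ← e2, e3, e4] at e5
  exact (mul_left_cancel₀ hc0 e5).symm

end Pool.Agent.MP_cce4c9_lc.H9
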